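import Pool.Agent.H45.EGH.S3

/-!
# EGH: G62, G63, growth from degree 2 to 3 and from degree 3 to 4, six quadrics
-/

set_option autoImplicit false

namespace Pool.EGH

open MvPolynomial

theorem t_g62 (hP66 : P66Stmt) (hIMG : IMGStmt) (hGPM : GPMStmt) : G62Stmt := by
  intro K _ _ Q I hQ hI hQI
  obtain ⟨a1, a2, a3⟩ := hIMG K 6 6 Q I hQ hI hQI 2
  obtain ⟨b1, b2', -⟩ := hIMG K 6 6 Q I hQ hI hQI 3
  have h1 := hP66 K Q (im Q I 2) hQ a1
  have : Module.Finite K ↥(gp Q 3) := (hGPM K 6 Q).1 3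
  have : Module.Finite K ↥(im Q I 3) := Submodule.finiteDimensional_of_le b1
  have h2 : dg Q (im Q I 2) ≤ Module.finrank K ↥(im Q I 3) := Submodule.finrank_mono a3
  have e1 : Nat.choose 6 2 = 15 := by decide
  have e2 : Nat.choose 6 3 = 20 := by decide
  rw [e1] at a2
  rw [e2] at b2'
  have e3 : 15 - Module.finrank K ↥(im Q I 2) = hf I 2 := by omega
  rw [e3] at h1
  omega

theorem g63_check : ∀ h4 ≤ 15, ∀ h3 ≤ 20, ∀ c ≤ 15, h4 ≤ c → 20 - h3 ≤ b2 (15 - c) →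
    h4 ≤ b3 h3 := by
  decide

theorem t_g63 (hP66 : P66Stmt) (hIMG : IMGStmt) (hANN : ANNStmt) (hGPM : GPMStmt) : G63Stmt := by
  intro K _ _ Q I hQ hI hQI
  have : Infinite K := inferInstance
  obtain ⟨a1, a2, a3⟩ := hIMG K 6 6 Q I hQ hI hQI 3
  obtain ⟨b1, b2', -⟩ := hIMG K 6 6 Q I hQ hI hQI 4
  have : Module.Finite K ↥(gp Q 4) := (hGPM K 6 Q).1 4
  have : Module.Finite K ↥(gp Q 3) := (hGPM K 6 Q).1 3
  have : Module.Finite K ↥(im Q I 4) := Submodule.finiteDimensional_of_le b1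
  have h2 : dg Q (im Q I 3) ≤ Module.finrank K ↥(im Q I 4) := Submodule.finrank_mono a3
  obtain ⟨C, hC⟩ : ∃ C, C = ann Q 2 (im Q I 3) := ⟨_, rfl⟩
  have hCg : C ≤ gp Q 2 := by
    rw [hC]
    exact fun y hy => hy.1
  have h3 := hANN K 6 6 Q hQ 3 2 1 (by norm_num) (im Q I 3) a1
  have h4 := hANN K 6 6 Q hQ 2 3 1 (by norm_num) C hCg
  have h5 := hP66 K Q C hQ hCg
  rw [← hC] at h3
  have hle : ann Q 3 C ≤ gp Q 3 := fun y hy => hy.1
  have : Module.Finite K ↥(ann Q 3 C) := Submodule.finiteDimensional_of_le hle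
  have h6 : im Q I 3 ≤ ann Q 3 C := by
    intro y hy
    refine ⟨a1 hy, fun v hv => ?_⟩
    rw [hC] at hv
    rw [mul_comm]
    exact hv.2 y hy
  have h7 := Submodule.finrank_mono h6
  have e1 : Nat.choose 6 2 = 15 := by decide
  have e2 : Nat.choose 6 3 = 20 := by decide
  have e4 : Nat.choose 6 4 = 15 := by decide
  rw [e1] at h3
  rw [e2] at a2 h4
  rw [e4] at b2'
  unfold dg at h2 h5
  refine g63_check (hf I 4) (by omega) (hf I 3) (by omega) (Module.finrank K C) (by omega)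
    (by omega) ?_
  omega

end Pool.EGH
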