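import Pool.Agent.H45.EGH.S2

/-!
# EGH: KIL, the elements killed by a linear form
-/

set_option autoImplicit false

namespace Pool.EGH

open MvPolynomial

namespace KIL97

variable {K : Type} [Field K] {N : ℕ}

theorem mem_sup_iff (J : Ideal (PR K N)) (q z : PR K N) :
    z ∈ J ⊔ Ideal.span {q} ↔ ∃ b, z - q * b ∈ J := by
  constructor
  · intro h
    obtain ⟨j, hj, y, hy, e⟩ := Submodule.mem_sup.1 h
    obtain ⟨b, hb⟩ := Ideal.mem_span_singleton'.1 hy
    refine ⟨b, ?_⟩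
    have : z - q * b = j := by rw [← e, ← hb]; ring
    rw [this]
    exact hj
  · rintro ⟨b, hb⟩
    have : z = (z - q * b) + q * b := by ring
    rw [this]
    exact add_mem (Ideal.mem_sup_left hb)
      (Ideal.mem_sup_right (Ideal.mul_mem_right _ _ (Ideal.mem_span_singleton_self q)))

theorem uniq {J : Ideal (PR K N)} {q l : PR K N} (hq : Rg J q) {z₁ z₂ a₁ a₂ : PR K N}
    (hz : z₁ - z₂ ∈ J ⊔ Ideal.span {q}) (h₁ : l * z₁ - q * a₁ ∈ J) (h₂ : l * z₂ - q * a₂ ∈ J) :
    a₁ - a₂ ∈ J ⊔ Ideal.span {l} := by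
  obtain ⟨b, hb⟩ := (mem_sup_iff J q _).1 hz
  rw [mem_sup_iff]
  refine ⟨b, hq _ ?_⟩
  have e : q * (a₁ - a₂ - l * b) =
      l * (z₁ - z₂ - q * b) - (l * z₁ - q * a₁) + (l * z₂ - q * a₂) := by ring
  rw [e]
  exact add_mem (sub_mem (Ideal.mul_mem_left _ _ hb) h₁) h₂

theorem inj {J : Ideal (PR K N)} {q l : PR K N} (hl : Rg J l) {z a : PR K N}
    (h : l * z - q * a ∈ J) (ha : a ∈ J ⊔ Ideal.span {l}) : z ∈ J ⊔ Ideal.span {q} := by
  obtain ⟨b, hb⟩ := (mem_sup_iff J l _).1 ha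
  rw [mem_sup_iff]
  refine ⟨b, hl _ ?_⟩
  have e : l * (z - q * b) = (l * z - q * a) + q * (a - l * b) := by ring
  rw [e]
  exact add_mem h (Ideal.mul_mem_left _ _ hb)

theorem hc_mul {d : ℕ} {q : PR K N} (hq : q ∈ fm K N d) (a : PR K N) (i : ℕ) :
    homogeneousComponent (d + i) (q * a) = q * homogeneousComponent i a := by
  have key : ∀ j : ℕ, homogeneousComponent (d + i) (q * homogeneousComponent j a) =
      if j = i then q * homogeneousComponent j a else 0 := by
    intro j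
    have h1 : q * homogeneousComponent j a ∈ fm K N (d + j) := by
      rw [mem_homogeneousSubmodule] at *
      exact hq.mul (homogeneousComponent_isHomogeneous j a)
    rw [homogeneousComponent_of_mem h1]
    by_cases h : j = i
    · rw [if_pos h, if_pos (by rw [h])]
    · rw [if_neg h, if_neg (by omega)]
  conv_lhs => rw [← sum_homogeneousComponent a]
  rw [Finset.mul_sum, map_sum, Finset.sum_congr rfl fun j _ => key j, Finset.sum_ite_eq']
  split_ifs with h
  · rfl
  · rw [homogeneousComponent_eq_zero _ _ (by simpa using h), mul_zero]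

/-- a homogeneous choice -/
theorem hom {J : Ideal (PR K N)} (hJ : Hg J) {q l : PR K N} (hq : q ∈ fm K N 2)
    (hl : l ∈ fm K N 1) {i : ℕ} {z a : PR K N} (hz : z ∈ fm K N (i + 1))
    (h : l * z - q * a ∈ J) : l * z - q * homogeneousComponent i a ∈ J := by
  have h1 := hJ _ h (i + 2)
  have h2 : (l * z) ∈ fm K N (i + 2) := by
    rw [mem_homogeneousSubmodule] at *
    have := hl.mul hz
    rwa [show 1 + (i + 1) = i + 2 by ring] at this
  have h3 : homogeneousComponent (i + 2) (q * a) = q * homogeneousComponent i a := by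
    rw [show i + 2 = 2 + i by ring]
    exact hc_mul hq a i
  rw [map_sub, h3] at h1
  have h4 : homogeneousComponent (i + 2) (l * z) = l * z := by
    rw [homogeneousComponent_of_mem h2, if_pos rfl]
  rwa [h4] at h1

end KIL97

open KIL97 in
theorem t_kil (hEXC : EXCStmt) (hPER : PERStmt) (hHGA : HGAStmt) : KILStmt := by
  intro K _ _ N n Q l hQ hl hlQ
  obtain ⟨k, hk, hM⟩ := hQ
  obtain ⟨J, q, rfl, hq, hJq, hJl, hJ⟩ := hEXC K N k n Q l hM hk hl hlQ
  have hHg : Hg J := (hHGA K N).2.2.2 k n J hJ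
  refine ⟨J ⊔ Ideal.span {l}, ⟨k + 1, by omega, hPER K N k n J l hJ hl hJl⟩,
    Ideal.mem_sup_right (Ideal.mem_span_singleton_self l),
    sup_le (le_sup_left.trans le_sup_left) le_sup_right, ?_⟩
  -- existence
  have hex : ∀ z : ↥(LinearMap.ker (LinearMap.lsmul (PR K N)
      (PR K N ⧸ (J ⊔ Ideal.span {q})) l)),
      ∃ za : PR K N × PR K N, Ideal.Quotient.mk (J ⊔ Ideal.span {q}) za.1 = z.1 ∧
        l * za.1 - q * za.2 ∈ J := by
    intro z
    obtain ⟨w, hw⟩ := Ideal.Quotient.mk_surjective z.1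
    have h1 : l • z.1 = 0 := z.2
    rw [← hw] at h1
    have h2 : Ideal.Quotient.mk (J ⊔ Ideal.span {q}) (l * w) = 0 := h1
    rw [Ideal.Quotient.eq_zero_iff_mem, mem_sup_iff] at h2
    obtain ⟨b, hb⟩ := h2
    exact ⟨(w, b), hw, hb⟩
  choose f hf1 hf2 using hex
  have hun : ∀ z₁ z₂ a₁ a₂ : PR K N, Ideal.Quotient.mk (J ⊔ Ideal.span {q}) z₁ =
      Ideal.Quotient.mk (J ⊔ Ideal.span {q}) z₂ → l * z₁ - q * a₁ ∈ J → l * z₂ - q * a₂ ∈ J →
      Ideal.Quotient.mk (J ⊔ Ideal.span {l}) a₁ = Ideal.Quotient.mk (J ⊔ Ideal.span {l}) a₂ := by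
    intro z₁ z₂ a₁ a₂ h h1 h2
    rw [Ideal.Quotient.mk_eq_mk_iff_sub_mem] at h ⊢
    exact uniq hJq h h1 h2
  let φ : ↥(LinearMap.ker (LinearMap.lsmul (PR K N)
      (PR K N ⧸ (J ⊔ Ideal.span {q})) l)) →ₗ[PR K N] PR K N ⧸ (J ⊔ Ideal.span {l}) :=
    { toFun := fun z => Ideal.Quotient.mk (J ⊔ Ideal.span {l}) (f z).2
      map_add' := by
        intro x y
        rw [← map_add]
        refine hun (f (x + y)).1 ((f x).1 + (f y).1) _ _ ?_ (hf2 _) ?_
        · rw [hf1, map_add, hf1, hf1]; rfl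
        · have e : l * ((f x).1 + (f y).1) - q * ((f x).2 + (f y).2) =
              (l * (f x).1 - q * (f x).2) + (l * (f y).1 - q * (f y).2) := by ring
          rw [e]
          exact add_mem (hf2 x) (hf2 y)
      map_smul' := by
        intro c x
        have e0 : (RingHom.id (PR K N)) c • Ideal.Quotient.mk (J ⊔ Ideal.span {l}) (f x).2 =
            Ideal.Quotient.mk (J ⊔ Ideal.span {l}) (c * (f x).2) := rfl
        rw [e0]
        refine hun (f (c • x)).1 (c * (f x).1) _ _ ?_ (hf2 _) ?_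
        · rw [hf1, map_mul, hf1]; rfl
        · have e : l * (c * (f x).1) - q * (c * (f x).2) = c * (l * (f x).1 - q * (f x).2) := by
            ring
          rw [e]
          exact Ideal.mul_mem_left _ _ (hf2 x) }
  refine ⟨φ, ?_, ?_⟩
  · rw [injective_iff_map_eq_zero]
    intro z hz
    have h1 : Ideal.Quotient.mk (J ⊔ Ideal.span {l}) (f z).2 = 0 := hz
    rw [Ideal.Quotient.eq_zero_iff_mem] at h1
    have h2 := inj hJl (hf2 z) h1
    rw [← Ideal.Quotient.eq_zero_iff_mem, hf1] at h2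
    exact Subtype.ext h2
  · intro i z hz hzi
    obtain ⟨w, hw, hwz⟩ := hzi
    have hw' : w ∈ fm K N (i + 1) := hw
    have hwz' : Ideal.Quotient.mk (J ⊔ Ideal.span {q}) w = z := hwz
    have h1 : l • z = 0 := hz
    rw [← hwz'] at h1
    have h2 : Ideal.Quotient.mk (J ⊔ Ideal.span {q}) (l * w) = 0 := h1
    rw [Ideal.Quotient.eq_zero_iff_mem, mem_sup_iff] at h2
    obtain ⟨b, hb⟩ := h2
    have h3 := hom hHg hq hl hw' hb
    have h4 := hun (f ⟨z, hz⟩).1 w (f ⟨z, hz⟩).2 (homogeneousComponent i b)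
      (by rw [hf1, hwz']) (hf2 _) h3
    exact ⟨homogeneousComponent i b, homogeneousComponent_mem i b, h4.symm⟩

end Pool.EGH
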