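import Pool.Agent.H45.EGH.S2

/-!
# EGH: KIU, the growth of a space killed by a linear form, and QUO
-/

set_option autoImplicit false

namespace Pool.EGH

open MvPolynomial

theorem t_quo (hEXC : EXCStmt) (hPER : PERStmt) : QUOStmt := by
  intro K _ _ N n Q l hQ hl hlQ
  obtain ⟨k, hk, hM⟩ := hQ
  obtain ⟨J, q, rfl, hq, hJq, hJl, hJ⟩ := hEXC K N k n Q l hM hk hl hlQ
  exact ⟨J ⊔ Ideal.span {l}, ⟨k + 1, by omega, hPER K N k n J l hJ hl hJl⟩,
    Ideal.mem_sup_right (Ideal.mem_span_singleton_self l),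
    sup_le (le_sup_left.trans le_sup_left) le_sup_right⟩

namespace KIU97

variable {K : Type} [Field K] {N : ℕ}

theorem map_mul' {Q₀ : Ideal (PR K N)} {T : Type} [AddCommGroup T] [Module (PR K N) T]
    [Module K T] [IsScalarTower K (PR K N) T] (f : T →ₗ[PR K N] PR K N ⧸ Q₀)
    (W : Submodule K T) :
    (Submodule.span K {y : T | ∃ x ∈ fm K N 1, ∃ t ∈ W, y = x • t}).map (f.restrictScalars K) =
      gp Q₀ 1 * W.map (f.restrictScalars K) := by
  apply le_antisymm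
  · rw [Submodule.map_span, Submodule.span_le]
    rintro _ ⟨_, ⟨x, hx, t, ht, rfl⟩, rfl⟩
    have e : (f.restrictScalars K) (x • t) = Ideal.Quotient.mk Q₀ x * f t := by
      rw [LinearMap.restrictScalars_apply, map_smul]
      rfl
    rw [e]
    exact Submodule.mul_mem_mul ⟨x, hx, rfl⟩ ⟨t, ht, rfl⟩
  · rw [Submodule.mul_le]
    rintro _ ⟨x, hx, rfl⟩ _ ⟨t, ht, rfl⟩
    refine ⟨x • t, Submodule.subset_span ⟨x, hx, t, ht, rfl⟩, ?_⟩
    rw [LinearMap.restrictScalars_apply, map_smul]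
    rfl

theorem finrank_map {A B : Type} [AddCommGroup A] [Module K A] [AddCommGroup B] [Module K B]
    (f : A →ₗ[K] B) (hf : Function.Injective f) (p : Submodule K A) :
    Module.finrank K ↥(p.map f) = Module.finrank K p :=
  (Submodule.equivMapOfInjective f hf p).finrank_eq.symm

theorem main {Q Q' : Ideal (PR K N)} {i : ℕ} (T : Submodule (PR K N) (PR K N ⧸ Q))
    (φ : ↥T →ₗ[PR K N] PR K N ⧸ Q') (hφ : Function.Injective φ)
    (V : Submodule K (PR K N ⧸ Q)) (hVT : ∀ v ∈ V, v ∈ T)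
    (hφg : ∀ (z : PR K N ⧸ Q) (hz : z ∈ T), z ∈ V → φ ⟨z, hz⟩ ∈ gp Q' i) :
    ∃ V' : Submodule K (PR K N ⧸ Q'), V' ≤ gp Q' i ∧
      Module.finrank K V' = Module.finrank K V ∧ dg Q' V' = dg Q V := by
  obtain ⟨W, hW⟩ : ∃ W : Submodule K T, W = V.comap (T.subtype.restrictScalars K) := ⟨_, rfl⟩
  have hWm : W.map (T.subtype.restrictScalars K) = V := by
    rw [hW]
    apply Submodule.map_comap_eq_of_le
    intro v hv
    exact ⟨⟨v, hVT v hv⟩, rfl⟩
  have hi1 : Function.Injective (T.subtype.restrictScalars K) := fun a b h => Subtype.ext h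
  have hi2 : Function.Injective (φ.restrictScalars K) := fun a b h => hφ h
  refine ⟨W.map (φ.restrictScalars K), ?_, ?_, ?_⟩
  · rintro _ ⟨t, ht, rfl⟩
    have ht' : t ∈ W := ht
    rw [hW] at ht'
    exact hφg t.1 t.2 ht'
  · rw [finrank_map _ hi2, ← hWm, finrank_map _ hi1]
  · unfold dg
    rw [← map_mul', finrank_map _ hi2, ← hWm, ← map_mul', finrank_map _ hi1]

end KIU97

theorem t_kiu (hKIL : KILStmt) : KIUStmt := by
  intro K _ _ N n i Q l V hQ hl hl0 hV hlV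
  obtain ⟨l', hl', rfl⟩ := hl
  have hl'Q : l' ∉ Q := by
    intro h
    apply hl0
    exact Ideal.Quotient.eq_zero_iff_mem.2 h
  obtain ⟨Q', hQ', hlQ', -, φ, hφ, hφg⟩ := hKIL K N n Q l' hQ hl' hl'Q
  obtain ⟨V', h1, h2, h3⟩ := KIU97.main (i := i) _ φ hφ V
    (fun v hv => by
      rw [LinearMap.mem_ker]
      exact hlV v hv)
    (fun z hz hzV => hφg i z hz (hV hzV))
  exact ⟨Q', V', hQ', h1, h2, h3⟩

end Pool.EGH
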